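import Mathlib

/-!
# MP_a8fbd7_nt, OX/FIN: from `for every δ` to one exceptional set

* `diag` : if for every `δ > 0` the number of `n ≤ N` with `P δ n` is at most `C_δ N^r`, and `r < r'`, then
  one set `E` with at most `N^r'` elements up to `N` (for every `N`) contains, for every `δ > 0`, all but
  finitely many `n` with `P δ n`.
* `final_of_core` : the core statement (for every `δ > 0`) implies the final theorem of the block.
-/

set_option autoImplicit false

open Filter Topology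

namespace Pool.Agent.Work.MP_a8fbd7_nt.OX.FIN

/-- `A(n)`, number of primes in `[n² - n, n²]` -/
noncomputable def cA (n : ℕ) : ℝ := (((Finset.Icc (n ^ 2 - n) (n ^ 2)).filter Nat.Prime).card : ℝ)

/-- `B(n)`, number of primes in `[n², n² + n]` -/
noncomputable def cB (n : ℕ) : ℝ := (((Finset.Icc (n ^ 2) (n ^ 2 + n)).filter Nat.Prime).card : ℝ)

open Classical in
/-- the diagonal argument -/
theorem diag (P : ℝ → ℕ → Prop) (r r' : ℝ) (hr : r < r')
    (hmono : ∀ δ δ' : ℝ, δ ≤ δ' → ∀ n, P δ' n → P δ n)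
    (hcore : ∀ δ : ℝ, 0 < δ → ∃ C : ℝ, ∀ N : ℕ, 1 ≤ N →
      ((((Finset.Icc 1 N).filter (P δ)).card : ℕ) : ℝ) ≤ C * (N : ℝ) ^ r) :
    ∃ E : Set ℕ, (∀ N : ℕ, ((((Finset.Icc 1 N).filter (fun n => n ∈ E)).card : ℕ) : ℝ) ≤ (N : ℝ) ^ r') ∧
      ∀ δ : ℝ, 0 < δ → ∃ n0 : ℕ, ∀ n : ℕ, n0 ≤ n → n ∉ E → ¬ P δ n := by
  have hpos : ∀ j : ℕ, (0 : ℝ) < 1 / ((j : ℝ) + 1) := fun j => by positivity
  choose C hC using fun j : ℕ => hcore (1 / ((j : ℝ) + 1)) (hpos j)
  have hlim : Tendsto (fun N : ℕ => ((N : ℝ)) ^ (r' - r)) atTop atTop :=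
    (tendsto_rpow_atTop (by linarith)).comp tendsto_natCast_atTop_atTop
  have hex : ∀ j : ℕ, ∃ M : ℕ, 1 ≤ M ∧ j ≤ M ∧ ∀ N : ℕ, M ≤ N → C j * (N : ℝ) ^ r ≤ (N : ℝ) ^ r' := by
    intro j
    obtain ⟨M, hM⟩ := (tendsto_atTop.1 hlim (C j)).exists_forall_of_atTop
    refine ⟨max (max M j) 1, le_max_right _ _, (le_max_right M j).trans (le_max_left _ _), ?_⟩
    intro N hN
    have h1 : C j ≤ (N : ℝ) ^ (r' - r) := hM N (((le_max_left M j).trans (le_max_left _ _)).trans hN)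
    have hN0 : (0 : ℝ) < N := by
      have : 1 ≤ N := (le_max_right _ _).trans hN
      exact_mod_cast this
    calc C j * (N : ℝ) ^ r ≤ (N : ℝ) ^ (r' - r) * (N : ℝ) ^ r := by gcongr
      _ = (N : ℝ) ^ r' := by rw [← Real.rpow_add hN0]; congr 1; ring
  choose M hM1 hMj hM using hex
  refine ⟨{n | ∃ j : ℕ, M j ≤ n ∧ P (1 / ((j : ℝ) + 1)) n}, ?_, ?_⟩
  · intro N
    by_cases hN : ∃ j, M j ≤ N
    · obtain ⟨j0, hj0⟩ := hN
      have hj0N : j0 ≤ N := (hMj j0).trans hj0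
      set J := Nat.findGreatest (fun j => M j ≤ N) N with hJ
      have hJN : M J ≤ N := Nat.findGreatest_spec (P := fun j => M j ≤ N) hj0N hj0
      have hsub : (Finset.Icc 1 N).filter (fun n => n ∈ {n | ∃ j : ℕ, M j ≤ n ∧ P (1 / ((j : ℝ) + 1)) n}) ⊆
          (Finset.Icc 1 N).filter (P (1 / ((J : ℝ) + 1))) := by
        intro n hn
        rw [Finset.mem_filter] at hn ⊢
        obtain ⟨hn1, j, hj1, hj2⟩ := hn
        refine ⟨hn1, ?_⟩
        have hnN : n ≤ N := (Finset.mem_Icc.1 hn1).2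
        have hjN : M j ≤ N := hj1.trans hnN
        have hjJ : j ≤ J := Nat.le_findGreatest ((hMj j).trans hjN) hjN
        refine hmono _ _ ?_ n hj2
        have : (j : ℝ) ≤ J := by exact_mod_cast hjJ
        gcongr
      have hN1 : 1 ≤ N := (hM1 J).trans hJN
      calc ((((Finset.Icc 1 N).filter (fun n => n ∈ {n | ∃ j : ℕ, M j ≤ n ∧ P (1 / ((j : ℝ) + 1)) n})).card : ℕ) : ℝ)
          ≤ ((((Finset.Icc 1 N).filter (P (1 / ((J : ℝ) + 1)))).card : ℕ) : ℝ) := by
            exact_mod_cast Finset.card_le_card hsub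
        _ ≤ C J * (N : ℝ) ^ r := hC J N hN1
        _ ≤ (N : ℝ) ^ r' := hM J N hJN
    · have hempty : (Finset.Icc 1 N).filter (fun n => n ∈ {n | ∃ j : ℕ, M j ≤ n ∧ P (1 / ((j : ℝ) + 1)) n}) = ∅ := by
        rw [Finset.filter_eq_empty_iff]
        rintro n hn ⟨j, hj1, -⟩
        exact hN ⟨j, hj1.trans (Finset.mem_Icc.1 hn).2⟩
      rw [hempty, Finset.card_empty, Nat.cast_zero]
      positivity
  · intro δ hδ
    obtain ⟨j, hj⟩ := exists_nat_one_div_lt hδ
    refine ⟨M j, fun n hn hE hP => hE ⟨j, hn, ?_⟩⟩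
    exact hmono _ _ hj.le n hP

/-- the number of `n ≤ N` with a deviation larger than `δ` -/
def Core (r : ℝ) : Prop := ∀ δ : ℝ, 0 < δ → ∃ C : ℝ, ∀ N : ℕ, 1 ≤ N →
  ((Set.ncard {n : ℕ | 1 ≤ n ∧ n ≤ N ∧ (δ < |2 * cA n * Real.log n / n - 1| ∨
    δ < |2 * cB n * Real.log n / n - 1|)} : ℕ) : ℝ) ≤ C * (N : ℝ) ^ r

/-- the ratio form of the asymptotic equivalence along a filter -/
theorem equiv_of_ratio (f : ℕ → ℝ) (l : Filter ℕ) (hl : l ≤ atTop)
    (h : Tendsto (fun n : ℕ => 2 * f n * Real.log n / n) l (𝓝 1)) :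
    Asymptotics.IsEquivalent l f (fun n : ℕ => (n : ℝ) / (2 * Real.log (n : ℝ))) := by
  have hev : ∀ᶠ n : ℕ in l, 2 ≤ n := hl (eventually_ge_atTop 2)
  rw [Asymptotics.isEquivalent_iff_tendsto_one]
  · refine h.congr' ?_
    filter_upwards [hev] with n hn
    have hn0 : (0 : ℝ) < n := by
      have : 0 < n := by omega
      exact_mod_cast this
    have hlog : 0 < Real.log n := Real.log_pos (by
      have : 1 < n := by omega
      exact_mod_cast this)
    simp only [Pi.div_apply]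
    field_simp
  · filter_upwards [hev] with n hn
    have hn0 : (0 : ℝ) < n := by
      have : 0 < n := by omega
      exact_mod_cast this
    have hlog : 0 < Real.log n := Real.log_pos (by
      have : 1 < n := by omega
      exact_mod_cast this)
    positivity

/-- **Final step.** -/
theorem final_of_core (r r' : ℝ) (hr : r < r') (hcore : Core r) :
    ∃ E : Set ℕ, (∀ N : ℕ, ((E ∩ Set.Icc 1 N).ncard : ℝ) ≤ (N : ℝ) ^ r') ∧
      Tendsto (fun n : ℕ => 2 * cA n * Real.log n / n) (atTop ⊓ 𝓟 Eᶜ) (𝓝 1) ∧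
      Tendsto (fun n : ℕ => 2 * cB n * Real.log n / n) (atTop ⊓ 𝓟 Eᶜ) (𝓝 1) := by
  classical
  obtain ⟨E, hE1, hE2⟩ := diag (fun δ n => δ < |2 * cA n * Real.log n / n - 1| ∨
      δ < |2 * cB n * Real.log n / n - 1|) r r' hr
    (fun δ δ' h n hP => hP.imp (fun h' => lt_of_le_of_lt h h') (fun h' => lt_of_le_of_lt h h'))
    (by
      intro δ hδ
      obtain ⟨C, hC⟩ := hcore δ hδ
      refine ⟨C, fun N hN => ?_⟩
      have h1 := hC N hN
      have h2 : {n : ℕ | 1 ≤ n ∧ n ≤ N ∧ (δ < |2 * cA n * Real.log n / n - 1| ∨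
          δ < |2 * cB n * Real.log n / n - 1|)} =
          ((Finset.Icc 1 N).filter (fun n : ℕ => δ < |2 * cA n * Real.log n / n - 1| ∨
            δ < |2 * cB n * Real.log n / n - 1|) : Finset ℕ) := by
        ext n
        simp only [Set.mem_ofPred_eq, Finset.coe_filter, Finset.mem_Icc]
        tauto
      rw [h2, Set.ncard_coe_finset] at h1
      refine le_trans (le_of_eq ?_) h1
      congr!)
  refine ⟨E, ?_, ?_, ?_⟩
  · intro N
    have h2 : E ∩ Set.Icc 1 N = ((Finset.Icc 1 N).filter (fun n => n ∈ E) : Finset ℕ) := by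
      ext n
      simp only [Set.mem_inter_iff, Set.mem_Icc, Finset.coe_filter, Finset.mem_Icc, Set.mem_ofPred_eq]
      tauto
    rw [h2, Set.ncard_coe_finset]
    exact hE1 N
  · rw [Metric.tendsto_nhds]
    intro ε hε
    obtain ⟨n0, hn0⟩ := hE2 (ε / 2) (by linarith)
    rw [eventually_inf_principal]
    filter_upwards [eventually_ge_atTop n0] with n hn hnE
    have := hn0 n hn hnE
    push Not at this
    rw [Real.dist_eq]
    linarith [this.1]
  · rw [Metric.tendsto_nhds]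
    intro ε hε
    obtain ⟨n0, hn0⟩ := hE2 (ε / 2) (by linarith)
    rw [eventually_inf_principal]
    filter_upwards [eventually_ge_atTop n0] with n hn hnE
    have := hn0 n hn hnE
    push Not at this
    rw [Real.dist_eq]
    linarith [this.2]

/-- the same with asymptotic equivalence, in the words of the problem -/
theorem final_equiv_of_core (r r' : ℝ) (hr : r < r') (hcore : Core r) :
    ∃ E : Set ℕ, (∀ N : ℕ, ((E ∩ Set.Icc 1 N).ncard : ℝ) ≤ (N : ℝ) ^ r') ∧
      Asymptotics.IsEquivalent (atTop ⊓ 𝓟 Eᶜ)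
        (fun n : ℕ => (((Finset.Icc (n ^ 2 - n) (n ^ 2)).filter Nat.Prime).card : ℝ))
        (fun n : ℕ => (n : ℝ) / (2 * Real.log (n : ℝ))) ∧
      Asymptotics.IsEquivalent (atTop ⊓ 𝓟 Eᶜ)
        (fun n : ℕ => (((Finset.Icc (n ^ 2) (n ^ 2 + n)).filter Nat.Prime).card : ℝ))
        (fun n : ℕ => (n : ℝ) / (2 * Real.log (n : ℝ))) := by
  obtain ⟨E, h1, h2, h3⟩ := final_of_core r r' hr hcore
  exact ⟨E, h1, equiv_of_ratio cA _ inf_le_left h2, equiv_of_ratio cB _ inf_le_left h3⟩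

end Pool.Agent.Work.MP_a8fbd7_nt.OX.FIN
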